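import Pool.Agent.Q67.OR.Stm

/-!
# Project OR of helper67, job REC
-/

set_option autoImplicit false

namespace Pool.Agent.Q130.OR

open Pool.Agent.Q67.OR

/-- **JOB REC.** -/
theorem t_REC : J_REC := by
  intro W hW r
  constructor
  · intro h
    rcases r with _ | k
    · exact Or.inl rfl
    · refine Or.inr ?_
      rcases hW k with hk | hk
      · left
        have key : ∀ j, j ≤ k → W (k - j) < W (k + 1) := by
          intro j
          induction j with
          | zero => intro _; rw [Nat.sub_zero, hk]; omega
          | succ j ih =>
            intro hj
            have h1 := ih (by omega)
            have h2 := h (k - (j + 1)) (by omega)
            have h3 := hW (k - (j + 1))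
            rw [show k - (j + 1) + 1 = k - j by omega] at h3
            omega
        intro n hn
        have := key (k - n) (by omega)
        rwa [show k - (k - n) = n by omega] at this
      · right
        have key : ∀ j, j ≤ k → W (k + 1) < W (k - j) := by
          intro j
          induction j with
          | zero => intro _; rw [Nat.sub_zero, hk]; omega
          | succ j ih =>
            intro hj
            have h1 := ih (by omega)
            have h2 := h (k - (j + 1)) (by omega)
            have h3 := hW (k - (j + 1))
            rw [show k - (j + 1) + 1 = k - j by omega] at h3
            omega
        intro n hn
        have := key (k - n) (by omega)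
        rwa [show k - (k - n) = n by omega] at this
  · rintro (h | h | h) n hn
    · omega
    · exact (h n hn).ne'
    · exact (h n hn).ne

end Pool.Agent.Q130.OR
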